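import Pool.Agent.Y520.AS.Stm

/-!
# Project AS, part SUP: the uniform bound away from `1` with advection

Adaptation of `Pool.Agent.H947R3.sup_bound`.
-/

set_option autoImplicit false

open MeasureTheory Set Filter Topology Laplacian InnerProductSpace

namespace Pool.Agent.Y970.AS

open Pool.Agent.H947R3 Pool.Agent.Y520.AR Pool.Agent.Y520.AS

/-- **SUP** -/
theorem t_SUP (hT : S_TEST) (hN : S_NED) (hL : S_LEV) : S_SUP := by
  intro f d Ω c B ls hf hDr hls
  obtain ⟨C, hC0, hC⟩ := gns
  have hB : 0 ≤ B := hDr.nonneg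
  have hC1 : 0 ≤ (2 * B + B ^ 2) / (ls / 2) := by positivity
  obtain ⟨Φ, Ψ, Θ, k, B₀, hB₀, hΦ, hΨ, hΘ, hk, h00, hnn, hΦm, hΦb, hP⟩ :=
    hT f d ((2 * B + B ^ 2) / (ls / 2)) hf hC1
  set V : ℝ := volume.real Ω with hV
  have hV0 : 0 ≤ V := measureReal_nonneg
  set Q : ℝ := (3 / 2 * C * (ls + 2 * B)) * (B₀ * V) with hQ
  have hQ0 : 0 ≤ Q := by positivity
  obtain ⟨t0, ht0, hΦt0⟩ := hΦb (max 1 (2 * Q))
  have hΦt0' : 1 ≤ Φ t0 := (le_max_left _ _).trans hΦt0
  have hΦt0'' : 2 * Q ≤ Φ t0 := (le_max_right _ _).trans hΦt0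
  obtain ⟨m0, hm0, hfm0⟩ := hf.blow (2 * f t0 + 1)
  refine ⟨m0, hm0, ?_⟩
  intro l hll0 hll u h heq hst x hx
  have hl : 0 < l := by linarith
  have hlC : ((2 : ℕ) : ℝ) * B + B ^ 2 ≤ l * ((2 * B + B ^ 2) / (ls / 2)) := by
    have h1 : (ls / 2) * ((2 * B + B ^ 2) / (ls / 2)) = 2 * B + B ^ 2 := by
      field_simp
    have h2 := mul_le_mul_of_nonneg_right hll0 hC1
    push_cast
    linarith
  have hfm := hf.mono
  have hf1 := hf.one t0 ht0
  obtain ⟨y, hy, hmax⟩ := h.exists_max ⟨x, hx⟩
  set m : ℝ := u y with hm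
  have hmI : m ∈ Ioo (0 : ℝ) 1 := ⟨h.pos y hy, h.lt y hy⟩
  have huI : ∀ z ∈ Ω, u z ∈ Ioo (0 : ℝ) 1 := fun z hz => ⟨h.pos z hz, h.lt z hz⟩
  set K : ℝ := f m with hK
  have hK1 : 1 ≤ K := hf.one m hmI
  -- main claim
  have claim : K ≤ 2 * f t0 := by
    rcases le_or_gt m t0 with hmt | hmt
    · have := hfm hmI ht0 hmt
      linarith
    have hned := hN 2 Ω c B u f d l ((2 * B + B ^ 2) / (ls / 2)) Φ Ψ Θ k B₀ hDr h hf hl heq hst
      hΦ hΨ hΘ hk h00 hnn hP hlC
    have hdu : ContinuousOn (fun z => d (u z)) Ω := h.comp_cont hf.dcont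
    -- integrability of `d(u)` on `{u > t0}`
    have hint0 : IntegrableOn (fun z => d (u z)) (LL Ω u t0) := by
      have h1 : IntegrableOn (fun z => d (u z)) {z | z ∈ Ω ∧ t0 ≤ u z} :=
        (hdu.mono (fun z hz => hz.1)).integrableOn_compact (h.superlevel_closed ht0.1)
      exact h1.mono_set fun z hz => ⟨hz.1, hz.2.le⟩
    have hint : ∀ t, t0 ≤ t → IntegrableOn (fun z => d (u z)) (LL Ω u t) := fun t ht =>
      hint0.mono_set (LL_anti _ _ ht)
    set a : ℝ → ℝ := fun t => volume.real (LL Ω u t) with ha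
    set I : ℝ → ℝ := fun t => ∫ z in LL Ω u t, d (u z) with hI
    set D : ℝ := 3 / 2 * C * (l * K + 2 * B) with hD
    have hD0 : 0 ≤ D := by positivity
    have hIt0 : Φ t0 * I t0 ≤ B₀ * V := by
      refine le_trans ?_ hned.2
      have h1 : Φ t0 * I t0 = ∫ z in LL Ω u t0, Φ t0 * d (u z) := (integral_const_mul _ _).symm
      rw [h1]
      have h2 : ∫ z in LL Ω u t0, Φ t0 * d (u z) ≤ ∫ z in LL Ω u t0, d (u z) * Φ (u z) := by
        apply setIntegral_mono_on (hint0.const_mul _) (hned.1.mono_set (LL_subset _ _ _))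
          (h.measurable_LL _)
        intro z hz
        have h3 := hΦm ht0 (huI z hz.1) hz.2.le
        have h4 := hf.dnn _ (huI z hz.1)
        rw [mul_comm]
        exact mul_le_mul_of_nonneg_left h3 h4
      refine h2.trans ?_
      apply setIntegral_mono_set hned.1
      · filter_upwards [ae_restrict_mem h.opn.measurableSet] with z hz
        exact mul_nonneg (hf.dnn _ (huI z hz)) (hnn _ (huI z hz)).1
      · exact (LL_subset _ _ _).eventuallyLE
    have hDI : D * I t0 ≤ K / 2 := by
      have h1 : I t0 ≤ B₀ * V / Φ t0 := by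
        rw [le_div_iff₀ (by linarith)]; linarith
      have h2 : D * I t0 ≤ D * (B₀ * V / Φ t0) := mul_le_mul_of_nonneg_left h1 hD0
      have h3 : D * (B₀ * V / Φ t0) ≤ K / 2 := by
        rw [← mul_div_assoc, div_le_iff₀ (by linarith)]
        have h4 : D * (B₀ * V) ≤ K * Q := by
          have h5 : l * K + 2 * B ≤ K * (ls + 2 * B) := by nlinarith
          have h6 : 0 ≤ 3 / 2 * C := by positivity
          have h7 : 0 ≤ B₀ * V := by positivity
          have h8 := mul_le_mul_of_nonneg_right (mul_le_mul_of_nonneg_left h5 h6) h7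
          rw [hD, hQ]
          calc _ ≤ _ := h8
            _ = _ := by ring
        nlinarith
      linarith
    have hs : ∀ s ∈ Ioo t0 m, f s ≤ f t0 + K / 2 := by
      intro s hs
      have hss' : s < (s + m) / 2 := by linarith [hs.2]
      have hs'm : (s + m) / 2 < m := by linarith [hs.2]
      set s' := (s + m) / 2
      have hI01 : ∀ z, t0 ≤ z → z ≤ s' → z ∈ Ioo (0 : ℝ) 1 := fun z h1 h2 =>
        ⟨ht0.1.trans_le h1, (h2.trans hs'm.le).trans_lt hmI.2⟩
      have := abstract_osc (a := a) (I := I) (f := f) (d := d) (D := D) (t0 := t0) (s := s) (s' := s')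
        hs.1 hss' hD0
        (fun p q _ hpq _ => measureReal_mono (LL_anti _ _ hpq) (h.LL_ne_top _))
        (by
          have hopen : IsOpen (LL Ω u s') := h.contOn.isOpen_inter_preimage h.opn isOpen_Ioi
          have hne : (LL Ω u s').Nonempty := ⟨y, hy, hs'm⟩
          have h1 := hopen.measure_pos volume hne
          exact ENNReal.toReal_pos h1.ne' (h.LL_ne_top _))
        (fun p r hp hr _ => by
          exact hL C hC0 hC Ω c B u (fun z => l * f (u z)) (l * K) p r hDr h (by positivity) heq
            (continuousOn_const.mul (h.comp_cont fun t ht => (hf.hd t ht).continuousAt.continuousWithinAt))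
            (fun z hz => mul_le_mul_of_nonneg_left (hfm (huI z hz) hmI (hmax z hz)) hl.le)
            (ht0.1.trans_le hp) hr)
        (fun p q hp hpq hq => by
          have hsub : LL Ω u q ⊆ LL Ω u p := LL_anti _ _ hpq.le
          have h1 : I p - I q = ∫ z in LL Ω u p \ LL Ω u q, d (u z) := by
            rw [setIntegral_sdiff (h.measurable_LL q) (hint p hp) hsub]
          have h2 : a p - a q = volume.real (LL Ω u p \ LL Ω u q) := by
            rw [measureReal_sdiff (μ := volume) hsub (h.measurable_LL q) (h.LL_ne_top _)]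
          rw [h1, h2]
          have h3 : d p * volume.real (LL Ω u p \ LL Ω u q) = ∫ z in LL Ω u p \ LL Ω u q, d p := by
            rw [setIntegral_const, smul_eq_mul, mul_comm]
          rw [h3]
          apply setIntegral_mono_on
          · refine integrableOn_const ?_
            exact ((measure_mono (sdiff_subset.trans (LL_subset Ω u p))).trans_lt h.volume_lt_top).ne
          · exact (hint p hp).mono_set sdiff_subset
          · exact (h.measurable_LL _).diff (h.measurable_LL _)
          · intro z hz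
            exact hf.dmono (hI01 p hp (hpq.le.trans hq)) (huI z hz.1.1) hz.1.2.le)
        (fun p q hp hpq _ => by
          apply setIntegral_mono_set (hint p hp)
          · filter_upwards [ae_restrict_mem (h.measurable_LL p)] with z hz
            exact hf.dnn _ (huI z hz.1)
          · exact (LL_anti _ _ hpq).eventuallyLE)
        (setIntegral_nonneg (h.measurable_LL _) fun z hz => hf.dnn _ (huI z hz.1))
        (fun p q hp hpq hq => by
          have := hf.conv q (hI01 q (hp.trans hpq) hq) p (hI01 p hp (hpq.trans hq))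
          linarith)
        (fun p hp hq => hf.dnn _ (hI01 p hp hq))
      linarith
    -- let `s → m`
    have hcont : ContinuousAt f m := (hf.hd m hmI).continuousAt
    have hlim : Tendsto f (𝓝[<] m) (𝓝 (f m)) := hcont.continuousWithinAt
    have hfinal : f m ≤ f t0 + K / 2 := by
      apply le_of_tendsto hlim
      filter_upwards [Ioo_mem_nhdsLT hmt] with s hs'
      exact hs s hs'
    linarith
  by_contra hcon
  push Not at hcon
  have h1 := hfm hm0 (huI x hx) hcon.le
  have h2 := hfm (huI x hx) hmI (hmax x hx)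
  linarith

end Pool.Agent.Y970.AS
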